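import Mathlib
import Pool.Agent.H958.RL.Stm2
import Pool.Agent.H195.RO.Good

/-!
# S_NLOC: members of `NK` are near bad vertices or belong to `NK` for local reasons
-/

set_option autoImplicit false

namespace Pool.Agent.H102.RL.Nloc

open Finset
open scoped Classical
open Pool.Agent.W830.RD (Om gle Pr Rlz)
open Pool.Agent.H958.RO
open Pool.Agent.H958.RL
open Pool.Agent.H195.RO.Good (rel rel_adj not_wk exists_seq Wk)

noncomputable section

variable {n : ℕ} {E : Finset (Fin n × Fin n)}

theorem gle_rel_true (F : Finset (Fin n × Fin n)) (v u : Fin n) :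
    Relation.ReflTransGen (rel F true) v u ↔ gle F v u := by
  have : rel F true = fun a b => (a, b) ∈ F := by
    funext a b; simp [rel]
  rw [this]; rfl

theorem gle_rel_false (F : Finset (Fin n × Fin n)) (v u : Fin n) :
    Relation.ReflTransGen (rel F false) v u ↔ gle F u v := by
  have : rel F false = Function.swap (fun a b => (a, b) ∈ F) := by
    funext a b; simp [rel, Function.swap]
  rw [this, Relation.reflTransGen_swap]; rfl

/-- distance at most `k` from `w` -/
def Dst (E : Finset (Fin n × Fin n)) (w : Fin n) (k : ℕ) (v : Fin n) : Prop :=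
  ∃ p : (GG E).Walk w v, p.length ≤ k

theorem mem_Bl {R : ℕ} {w v : Fin n} : v ∈ Bl E R w ↔ Dst E w R v := by
  unfold Bl Dst; simp

theorem Dst.mono {w v : Fin n} {k k' : ℕ} (h : Dst E w k v) (hk : k ≤ k') : Dst E w k' v := by
  obtain ⟨p, hp⟩ := h
  exact ⟨p, hp.trans hk⟩

theorem stay (hE : E ⊆ Om n) {l D R : ℕ} (hl : 1 ≤ l) {w : Fin n} (hw : w ∉ NN E l D R) (s : Bool)
    {k : ℕ} (hk : k + l ≤ R + 1) {v u : Fin n} (hv : Dst E w k v)
    (h : Relation.ReflTransGen (rel E s) v u) :
    Relation.ReflTransGen (rel (res E (Bl E R w)) s) v u ∧ Dst E w (k + l - 1) u := by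
  have hvb : ¬ Bad E l D v := by
    intro hb
    obtain ⟨p, hp⟩ := hv
    exact hw (mem_filter.2 ⟨mem_univ _, v, hb, p, by omega⟩)
  obtain ⟨j, q, hq0, hqj, hq⟩ := exists_seq h
  have hj : j < l := by
    by_contra hcon
    exact not_wk s hvb ⟨q, hq0, fun i hi => hq i (by omega)⟩
  have hd : ∀ i ≤ j, Dst E w (k + i) (q i) := by
    intro i
    induction i with
    | zero => intro _; rw [hq0]; exact hv
    | succ i ih =>
      intro hi
      obtain ⟨p, hp⟩ := ih (by omega)
      refine ⟨p.concat (rel_adj hE s _ _ (hq i (by omega))), ?_⟩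
      rw [SimpleGraph.Walk.length_concat]
      omega
  have hr : ∀ i < j, rel (res E (Bl E R w)) s (q i) (q (i + 1)) := by
    intro i hi
    have h1 : q i ∈ Bl E R w := mem_Bl.2 ((hd i (by omega)).mono (by omega))
    have h2 : q (i + 1) ∈ Bl E R w := mem_Bl.2 ((hd (i + 1) (by omega)).mono (by omega))
    have h3 := hq i hi
    unfold rel at h3 ⊢
    unfold res
    cases s
    · simp only [Bool.false_eq_true, if_false] at h3 ⊢
      exact mem_filter.2 ⟨h3, h2, h1⟩
    · simp only [if_true] at h3 ⊢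
      exact mem_filter.2 ⟨h3, h1, h2⟩
  have ht : ∀ i ≤ j, Relation.ReflTransGen (rel (res E (Bl E R w)) s) v (q i) := by
    intro i
    induction i with
    | zero => intro _; rw [hq0]
    | succ i ih => intro hi; exact (ih (by omega)).tail (hr i (by omega))
  refine ⟨hqj ▸ ht j le_rfl, ?_⟩
  rw [← hqj]
  exact (hd j le_rfl).mono (by omega)

theorem main : S_NLOC := by
  intro n l D K E hE hl
  have hsub : NK E K ⊆ NN E l D (3 * l) ∪ univ.filter (fun w : Fin n =>
      (∀ v ∈ Bl E (3 * l) w, dg E univ v ≤ D) ∧ w ∈ NK (res E (Bl E (3 * l) w)) K) := by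
    intro w hw
    rw [mem_union]
    by_cases hN : w ∈ NN E l D (3 * l)
    · exact Or.inl hN
    right
    obtain ⟨-, x, b, hb, hxw, hxb⟩ := mem_filter.1 hw
    refine mem_filter.2 ⟨mem_univ _, ?_, ?_⟩
    · intro v hv
      by_contra hcon
      obtain ⟨p, hp⟩ := mem_Bl.1 hv
      exact hN (mem_filter.2 ⟨mem_univ _, v, Or.inl (not_le.1 hcon), p, hp⟩)
    · have h0 : Dst E w 0 w := ⟨SimpleGraph.Walk.nil, le_rfl⟩
      obtain ⟨h1, h2⟩ := stay hE hl hN false (by omega) h0 ((gle_rel_false E w x).2 hxw)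
      obtain ⟨h3, h4⟩ := stay hE hl hN true (by omega) h2 ((gle_rel_true E x b).2 hxb)
      refine mem_filter.2 ⟨mem_univ _, x, b, ?_, (gle_rel_false _ w x).1 h1,
        (gle_rel_true _ x b).1 h3⟩
      rcases hb with hb | hb
      · left
        refine lt_of_lt_of_le hb (card_le_card fun u hu => ?_)
        have h5 := (mem_filter.1 hu).2
        obtain ⟨h6, -⟩ := stay hE hl hN true (by omega) h4 ((gle_rel_true E b u).2 h5)
        exact mem_filter.2 ⟨mem_univ _, (gle_rel_true _ b u).1 h6⟩
      · right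
        refine lt_of_lt_of_le hb (card_le_card fun u hu => ?_)
        have h5 := (mem_filter.1 hu).2
        obtain ⟨h6, -⟩ := stay hE hl hN false (by omega) h4 ((gle_rel_false E b u).2 h5)
        exact mem_filter.2 ⟨mem_univ _, (gle_rel_false _ b u).1 h6⟩
  exact (card_le_card hsub).trans (card_union_le _ _)

end

end Pool.Agent.H102.RL.Nloc
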